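import Mathlib

/-! Walks with multiplicities, budgets in units `1 / J`. -/

set_option autoImplicit false

namespace Pool.Agent.H51.RB

open Finset

variable {V : Type}

/-- `Wk m X v w l`: a walk from `v` to `w` inside `X`, all of whose arcs have positive
multiplicity; `l` is the list of the multiplicities of its arcs. -/
inductive Wk (m : V → V → ℕ) (X : Finset V) : V → V → List ℕ → Prop
  | nil {v : V} (hv : v ∈ X) : Wk m X v v []
  | cons {v u w : V} {l : List ℕ} (hv : v ∈ X) (h : 0 < m v u) (hw : Wk m X u w l) :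
      Wk m X v w (m v u :: l)

/-- number of entries of `l` which are at most `τ` -/
def cn (l : List ℕ) (τ : ℕ) : ℕ := l.countP fun a => decide (a ≤ τ)

/-- the list fits into the budget `c / J`: at most `(c / J) * τ` entries are `≤ τ` -/
def Fit (J c : ℕ) (l : List ℕ) : Prop := ∀ τ, J * cn l τ ≤ c * τ

/-- `w` can be reached from `v` inside `X` with budget `c / J` -/
def Rc (m : V → V → ℕ) (X : Finset V) (J c : ℕ) (v w : V) : Prop :=
  ∃ l, Wk m X v w l ∧ Fit J c l

/-- there is no closed walk with budget `c / J` -/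
def Acyc (m : V → V → ℕ) (X : Finset V) (J c : ℕ) : Prop :=
  ∀ v l, Wk m X v v l → l ≠ [] → ¬ Fit J c l

/-- A system on the vertex set `X`: no loops, multiplicities are `0` or at least `L`, all
multidegrees inside `X` are at least `δ`, no closed walk with budget `c / J`. -/
structure Sys (J L c δ : ℕ) (m : V → V → ℕ) (X : Finset V) : Prop where
  loop : ∀ v, m v v = 0
  big : ∀ v w, m v w = 0 ∨ L ≤ m v w
  deg : ∀ v ∈ X, δ ≤ ∑ w ∈ X, m v w
  acyc : Acyc m X J c

theorem cn_append (l l' : List ℕ) (τ : ℕ) : cn (l ++ l') τ = cn l τ + cn l' τ := by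
  simp [cn]

theorem cn_cons (a : ℕ) (l : List ℕ) (τ : ℕ) :
    cn (a :: l) τ = (if a ≤ τ then 1 else 0) + cn l τ := by
  unfold cn
  rw [List.countP_cons]
  by_cases h : a ≤ τ <;> simp [h, add_comm]

theorem cn_nil (τ : ℕ) : cn [] τ = 0 := by simp [cn]

theorem cn_sublist {l l' : List ℕ} (h : l.Sublist l') (τ : ℕ) : cn l τ ≤ cn l' τ :=
  h.countP_le

theorem Fit.nil (J c : ℕ) : Fit J c [] := by
  intro τ
  rw [cn_nil]
  simp

theorem Fit.mono {J c c' : ℕ} {l : List ℕ} (h : Fit J c l) (hc : c ≤ c') : Fit J c' l :=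
  fun τ => (h τ).trans (Nat.mul_le_mul_right τ hc)

theorem Fit.sub {J c : ℕ} {l l' : List ℕ} (h : Fit J c l') (hs : l.Sublist l') : Fit J c l :=
  fun τ => (Nat.mul_le_mul_left J (cn_sublist hs τ)).trans (h τ)

theorem Fit.append {J c c' : ℕ} {l l' : List ℕ} (h : Fit J c l) (h' : Fit J c' l') :
    Fit J (c + c') (l ++ l') := by
  intro τ
  rw [cn_append, mul_add, add_mul]
  exact add_le_add (h τ) (h' τ)

/-- one additional arc of multiplicity at least `L ≥ J` costs one unit -/
theorem Fit.single {J L a : ℕ} (hJ : J ≤ L) (ha : L ≤ a) : Fit J 1 [a] := by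
  intro τ
  rw [cn_cons, cn_nil]
  by_cases h : a ≤ τ
  · rw [if_pos h]; omega
  · rw [if_neg h]; simp

theorem Wk.append {m : V → V → ℕ} {X : Finset V} {v u w : V} {l l' : List ℕ}
    (h : Wk m X v u l) (h' : Wk m X u w l') : Wk m X v w (l ++ l') := by
  induction h with
  | nil hv => simpa using h'
  | cons hv h _ ih => exact Wk.cons hv h (ih h')

theorem Wk.left {m : V → V → ℕ} {X : Finset V} {v w : V} {l : List ℕ}
    (h : Wk m X v w l) : v ∈ X := by
  cases h with
  | nil hv => exact hv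
  | cons hv _ _ => exact hv

theorem Wk.right {m : V → V → ℕ} {X : Finset V} {v w : V} {l : List ℕ}
    (h : Wk m X v w l) : w ∈ X := by
  induction h with
  | nil hv => exact hv
  | cons _ _ _ ih => exact ih

theorem Wk.single {m : V → V → ℕ} {X : Finset V} {v w : V} (hv : v ∈ X) (hw : w ∈ X)
    (h : 0 < m v w) : Wk m X v w [m v w] := Wk.cons hv h (Wk.nil hw)

theorem Rc.refl {m : V → V → ℕ} {X : Finset V} (J c : ℕ) {v : V} (hv : v ∈ X) :
    Rc m X J c v v := ⟨[], Wk.nil hv, Fit.nil J c⟩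

theorem Rc.trans {m : V → V → ℕ} {X : Finset V} {J c c' : ℕ} {v u w : V}
    (h : Rc m X J c v u) (h' : Rc m X J c' u w) : Rc m X J (c + c') v w := by
  obtain ⟨l, h1, h2⟩ := h
  obtain ⟨l', h1', h2'⟩ := h'
  exact ⟨l ++ l', h1.append h1', h2.append h2'⟩

theorem Rc.mono {m : V → V → ℕ} {X : Finset V} {J c c' : ℕ} {v w : V}
    (h : Rc m X J c v w) (hc : c ≤ c') : Rc m X J c' v w := by
  obtain ⟨l, h1, h2⟩ := h
  exact ⟨l, h1, h2.mono hc⟩

theorem Rc.right {m : V → V → ℕ} {X : Finset V} {J c : ℕ} {v w : V}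
    (h : Rc m X J c v w) : w ∈ X := by
  obtain ⟨l, h1, _⟩ := h
  exact h1.right

theorem Acyc.mono {m : V → V → ℕ} {X : Finset V} {J c c' : ℕ} (h : Acyc m X J c')
    (hc : c ≤ c') : Acyc m X J c := fun v l h1 h2 h3 => h v l h1 h2 (h3.mono hc)

theorem Sys.mono {J L c c' δ : ℕ} {m : V → V → ℕ} {X : Finset V} (h : Sys J L c' δ m X)
    (hc : c ≤ c') : Sys J L c δ m X := ⟨h.loop, h.big, h.deg, h.acyc.mono hc⟩

/-- entries of the list of a walk are at least `L` -/
theorem Wk.entries {m : V → V → ℕ} {X : Finset V} {L : ℕ} (hb : ∀ v w, m v w = 0 ∨ L ≤ m v w)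
    {v w : V} {l : List ℕ} (h : Wk m X v w l) : ∀ a ∈ l, L ≤ a := by
  induction h with
  | nil hv => simp
  | @cons v u w l hv h _ ih =>
    intro a ha
    rcases List.mem_cons.1 ha with rfl | ha
    · rcases hb v u with h0 | h0
      · omega
      · exact h0
    · exact ih a ha

end Pool.Agent.H51.RB
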