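import Mathlib
import Pool.Agent.H51.RB.Defs
import Pool.Agent.H16.Rb.Process

/-! MODULE Apr: the a priori bound, from the constant factor theorem of helper16. -/

set_option autoImplicit false

namespace Pool.Agent.H51.RB

open Finset Pool.Agent.H16.Rb

variable {V : Type}

/-- a function walk with positive multiplicities inside `X` gives a list walk -/
theorem wk_of_fun (m : V → V → ℕ) (X : Finset V) (P : ℕ → V → V → Prop)
    (hP : ∀ τ a b, P τ a b ↔ m a b ≤ τ) :
    ∀ (ℓ : ℕ) (x : ℕ → V), (∀ i ≤ ℓ, x i ∈ X) → (∀ i < ℓ, 0 < m (x i) (x (i + 1))) →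
      ∃ l : List ℕ, Wk m X (x 0) (x ℓ) l ∧ l.length = ℓ ∧ ∀ τ, cn l τ = cw (P τ) x ℓ := by
  classical
  intro ℓ
  induction ℓ with
  | zero =>
    intro x h0 _
    refine ⟨[], Wk.nil (h0 0 le_rfl), rfl, fun τ => ?_⟩
    rw [cn_nil]
    simp [cw]
  | succ ℓ ih =>
    intro x h0 h1
    obtain ⟨l, hl, hlen, hc⟩ := ih (fun i => x (i + 1)) (fun i hi => h0 (i + 1) (by omega))
      (fun i hi => h1 (i + 1) (by omega))
    refine ⟨m (x 0) (x 1) :: l, Wk.cons (h0 0 (by omega)) (h1 0 (by omega)) hl, by simp [hlen],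
      fun τ => ?_⟩
    rw [cn_cons, hc τ]
    unfold cw
    rw [card_filter, card_filter, sum_range_succ']
    rw [add_comm]
    congr 1
    by_cases h : m (x 0) (x 1) ≤ τ
    · rw [if_pos h, if_pos ((hP τ _ _).2 h)]
    · rw [if_neg h, if_neg (fun h' => h ((hP τ _ _).1 h'))]

theorem apriori [DecidableEq V] {J L c δ : ℕ} {m : V → V → ℕ} {X : Finset V}
    (hS : Sys J L c δ m X) (hJ : 0 < J) (A : Finset V) (hA : A ⊆ X) (hne : A.Nonempty) :
    ∃ v ∈ A, c * ∑ w ∈ A, m v w ≤ 13 * J * A.card := by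
  classical
  set m₁ : V → V → ℕ := fun v w => if v ∈ A ∧ w ∈ A then c * m v w / J else 0 with hm₁
  have hloop : ∀ a, m₁ a a = 0 := by
    intro a
    simp only [hm₁]
    split_ifs
    · rw [hS.loop]; simp
    · rfl
  -- a bound for the multiplicities
  obtain ⟨K, hK⟩ : ∃ K, ∀ v ∈ A, ∀ w ∈ A, m₁ v w < 4 * 2 ^ K := by
    refine ⟨∑ v ∈ A, ∑ w ∈ A, m₁ v w, fun v hv w hw => ?_⟩
    have h1 : m₁ v w ≤ ∑ w ∈ A, m₁ v w :=
      single_le_sum (f := fun w => m₁ v w) (fun _ _ => Nat.zero_le _) hw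
    have h2 : ∑ w ∈ A, m₁ v w ≤ ∑ v ∈ A, ∑ w ∈ A, m₁ v w :=
      single_le_sum (f := fun v => ∑ w ∈ A, m₁ v w) (fun _ _ => Nat.zero_le _) hv
    have h3 : ∑ v ∈ A, ∑ w ∈ A, m₁ v w < 2 ^ (∑ v ∈ A, ∑ w ∈ A, m₁ v w) :=
      Nat.lt_two_pow_self
    omega
  by_contra hcon
  push Not at hcon
  have hdeg : ∀ v ∈ A, 11 * A.card ≤ 5 * gam K (cnt A (m₁ v)) := by
    intro v hv
    have h1 := mass_le A (m₁ v) K (hK v hv)
    have h2 : (A.filter fun y => 0 < m₁ v y).card ≤ A.card := card_filter_le _ _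
    have h3 := hcon v hv
    have h4 : c * ∑ w ∈ A, m v w ≤ J * ∑ w ∈ A, m₁ v w + J * A.card := by
      rw [mul_sum, mul_sum, card_eq_sum_ones, mul_sum, ← sum_add_distrib]
      refine sum_le_sum fun w hw => ?_
      simp only [hm₁, if_pos (And.intro hv hw)]
      have := Nat.div_add_mod (c * m v w) J
      have h5 := Nat.mod_lt (c * m v w) hJ
      omega
    have h6 : J * (13 * A.card) < J * (∑ w ∈ A, m₁ v w + A.card) := by
      calc J * (13 * A.card) = 13 * J * A.card := by ring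
        _ < _ := h3
        _ ≤ _ := h4
        _ = _ := by ring
    have h7 : 13 * A.card < ∑ w ∈ A, m₁ v w + A.card := lt_of_mul_lt_mul_left h6 (Nat.zero_le J)
    omega
  obtain ⟨x, ℓ, hℓ, hx, hH⟩ := part_one m₁ K hloop A hne hdeg
  have hpos : ∀ i < ℓ, 0 < m₁ (x i) (x (i + 1)) := by
    intro i hi
    by_contra h0
    have h1 := hH 0
    have h2 : 0 < cw (fun a b => m₁ a b ≤ 0) x ℓ := by
      unfold cw
      rw [card_pos]
      exact ⟨i, by simp only [mem_filter, mem_range]; exact ⟨hi, by omega⟩⟩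
    omega
  have hin : ∀ i < ℓ, x i ∈ A ∧ x (i + 1) ∈ A := by
    intro i hi
    have h1 := hpos i hi
    by_contra h2
    simp only [hm₁, if_neg h2] at h1
    omega
  have hmem : ∀ i ≤ ℓ, x i ∈ X := by
    intro i hi
    rcases Nat.lt_or_ge i ℓ with h | h
    · exact hA (hin i h).1
    · have : i = ℓ := le_antisymm hi h
      rw [this, ← hx]
      exact hA (hin 0 hℓ).1
  have hpos' : ∀ i < ℓ, 0 < m (x i) (x (i + 1)) := by
    intro i hi
    have h1 := hpos i hi
    simp only [hm₁, if_pos (hin i hi)] at h1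
    by_contra h2
    have h3 : m (x i) (x (i + 1)) = 0 := by omega
    rw [h3] at h1
    simp at h1
  obtain ⟨l, hl, hlen, hc⟩ := wk_of_fun m X (fun τ a b => m a b ≤ τ) (fun _ _ _ => Iff.rfl) ℓ x
    hmem hpos'
  rw [← hx] at hl
  refine hS.acyc (x 0) l hl ?_ ?_
  · intro h
    rw [h] at hlen
    simp at hlen
    omega
  · intro τ
    rw [hc τ]
    have h1 : cw (fun a b => m a b ≤ τ) x ℓ ≤ cw (fun a b => m₁ a b ≤ c * τ / J) x ℓ := by
      unfold cw
      refine card_le_card ?_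
      intro i hi
      simp only [mem_filter, mem_range] at hi ⊢
      refine ⟨hi.1, ?_⟩
      simp only [hm₁, if_pos (hin i hi.1)]
      exact Nat.div_le_div_right (Nat.mul_le_mul_left c hi.2)
    have h2 := hH (c * τ / J)
    have h3 : J * (c * τ / J) ≤ c * τ := Nat.mul_div_le _ _
    calc J * cw (fun a b => m a b ≤ τ) x ℓ ≤ J * (c * τ / J) :=
          Nat.mul_le_mul_left J (h1.trans h2)
      _ ≤ c * τ := h3

end Pool.Agent.H51.RB
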