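import Mathlib

/-! MODULE Pot: the exponential potential. -/

set_option autoImplicit false

namespace Pool.Agent.H51.RB

open Finset

/-- the potential of the usage function `N` with `s` steps to go -/
noncomputable def Phi (L K : ℕ) (ρ q : ℝ) (N : ℕ → ℕ) (s : ℕ) : ℝ :=
  ∑ τ ∈ Icc L K, q ^ τ * ρ ^ (N τ) * (1 + (ρ - 1) * τ / K) ^ s

theorem Phi_avg {L K : ℕ} (hK : 0 < K) (ρ q : ℝ) (N : ℕ → ℕ) (s : ℕ) :
    ∑ j ∈ Icc 1 K, Phi L K ρ q (fun τ => N τ + if j ≤ τ then 1 else 0) s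
      = K * Phi L K ρ q N (s + 1) := by
  unfold Phi
  rw [sum_comm, mul_sum]
  refine sum_congr rfl fun τ hτ => ?_
  rw [mem_Icc] at hτ
  have h1 : ∑ j ∈ Icc 1 K, ρ ^ (N τ + if j ≤ τ then 1 else 0)
      = ρ ^ (N τ) * (K + (ρ - 1) * τ) := by
    have h2 : ∀ j ∈ Icc 1 K, ρ ^ (N τ + if j ≤ τ then 1 else 0)
        = ρ ^ (N τ) * (1 + (ρ - 1) * if j ≤ τ then 1 else 0) := by
      intro j _
      split_ifs
      · rw [pow_succ]; ring
      · simp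
    rw [sum_congr rfl h2, ← mul_sum, sum_add_distrib, ← mul_sum]
    congr 1
    have h3 : ∑ j ∈ Icc 1 K, (if j ≤ τ then (1:ℝ) else 0) = τ := by
      rw [sum_boole]
      have h4 : (Icc 1 K).filter (fun j => j ≤ τ) = Icc 1 τ := by
        ext j
        simp only [mem_filter, mem_Icc]
        omega
      rw [h4, Nat.card_Icc]
      simp
    rw [h3]
    simp
  have hK0 : (K : ℝ) ≠ 0 := by
    have : (0:ℝ) < K := by exact_mod_cast hK
    exact this.ne'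
  calc ∑ j ∈ Icc 1 K, q ^ τ * ρ ^ (N τ + if j ≤ τ then 1 else 0) * (1 + (ρ - 1) * τ / K) ^ s
      = q ^ τ * (∑ j ∈ Icc 1 K, ρ ^ (N τ + if j ≤ τ then 1 else 0))
          * (1 + (ρ - 1) * τ / K) ^ s := by
        rw [mul_sum, sum_mul]
    _ = _ := by
        rw [h1, pow_succ]
        field_simp

theorem Phi_term {L K : ℕ} {ρ q : ℝ} (hρ : 1 ≤ ρ) (hq : 0 ≤ q) (N : ℕ → ℕ) (s : ℕ) {τ : ℕ}
    (hτ : τ ∈ Icc L K) : q ^ τ * ρ ^ (N τ) ≤ Phi L K ρ q N s := by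
  have hb : ∀ σ : ℕ, (1:ℝ) ≤ (1 + (ρ - 1) * σ / K) ^ s := by
    intro σ
    refine one_le_pow₀ ?_
    have : 0 ≤ (ρ - 1) * σ / K := by
      have : 0 ≤ ρ - 1 := by linarith
      positivity
    linarith
  have h0 : ∀ σ ∈ Icc L K, 0 ≤ q ^ σ * ρ ^ (N σ) * (1 + (ρ - 1) * σ / K) ^ s := by
    intro σ _
    have := hb σ
    have h1 : (0:ℝ) ≤ ρ := by linarith
    positivity
  refine le_trans ?_ (single_le_sum h0 hτ)
  have h1 : (0:ℝ) ≤ ρ := by linarith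
  have h2 : 0 ≤ q ^ τ * ρ ^ (N τ) := by positivity
  nlinarith [hb τ]

theorem Phi_nonneg {L K : ℕ} {ρ q : ℝ} (hρ : 1 ≤ ρ) (hq : 0 ≤ q) (N : ℕ → ℕ) (s : ℕ) :
    0 ≤ Phi L K ρ q N s := by
  unfold Phi
  refine sum_nonneg fun σ _ => ?_
  have h1 : (0:ℝ) ≤ ρ := by linarith
  have : 0 ≤ (ρ - 1) * σ / K := by
    have : 0 ≤ ρ - 1 := by linarith
    positivity
  positivity

theorem Phi_zero_le {L K T : ℕ} (hK : 0 < K) {ρ q r : ℝ} (hρ : 1 ≤ ρ) (hq : 0 ≤ q)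
    (hr : q * Real.exp ((ρ - 1) * (T / K)) ≤ r) (hr1 : r < 1) :
    Phi L K ρ q (fun _ => 0) T ≤ r ^ L / (1 - r) := by
  have hr0 : 0 ≤ r := le_trans (by positivity) hr
  have hKr : (0:ℝ) < K := by exact_mod_cast hK
  have h1 : ∀ τ ∈ Icc L K, q ^ τ * ρ ^ 0 * (1 + (ρ - 1) * τ / K) ^ T ≤ r ^ τ := by
    intro τ _
    have h2 : (1 + (ρ - 1) * τ / K) ^ T ≤ Real.exp ((ρ - 1) * (T / K)) ^ τ := by
      have h3 : 1 + (ρ - 1) * τ / K ≤ Real.exp ((ρ - 1) * τ / K) := by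
        have := Real.add_one_le_exp ((ρ - 1) * τ / K)
        linarith
      have h4 : 0 ≤ 1 + (ρ - 1) * τ / K := by
        have : 0 ≤ ρ - 1 := by linarith
        positivity
      refine (pow_le_pow_left₀ h4 h3 T).trans (le_of_eq ?_)
      rw [← Real.exp_nat_mul, ← Real.exp_nat_mul]
      congr 1
      field_simp
    rw [pow_zero, mul_one]
    calc q ^ τ * (1 + (ρ - 1) * τ / K) ^ T ≤ q ^ τ * Real.exp ((ρ - 1) * (T / K)) ^ τ :=
          mul_le_mul_of_nonneg_left h2 (by positivity)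
      _ = (q * Real.exp ((ρ - 1) * (T / K))) ^ τ := by rw [mul_pow]
      _ ≤ r ^ τ := pow_le_pow_left₀ (by positivity) hr τ
  have h5 : Phi L K ρ q (fun _ => 0) T ≤ ∑ τ ∈ Icc L K, r ^ τ := by
    unfold Phi
    exact sum_le_sum h1
  refine h5.trans ?_
  by_cases hLK : L ≤ K + 1
  · have h6 : ∑ τ ∈ Icc L K, r ^ τ = ∑ τ ∈ Ico L (K + 1), r ^ τ := by
      congr 1
    rw [h6, geom_sum_Ico (ne_of_lt hr1) hLK]
    have h7 : (r ^ (K + 1) - r ^ L) / (r - 1) = (r ^ L - r ^ (K + 1)) / (1 - r) := by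
      rw [← neg_div_neg_eq]; congr 1 <;> ring
    rw [h7]
    have h8 : 0 ≤ r ^ (K + 1) := by positivity
    exact div_le_div_of_nonneg_right (by linarith) (by linarith)
  · have h6 : Icc L K = ∅ := by
      rw [Icc_eq_empty_iff]; omega
    rw [h6, sum_empty]
    have : 0 < 1 - r := by linarith
    positivity

end Pool.Agent.H51.RB
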