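import Mathlib
import Pool.Agent.H51.RB.Defs
import Pool.Agent.H51.RB.Pot

/-! MODULE Grow: balls of budget `θ` have at least `(1 - small) θ δ` vertices. -/

set_option autoImplicit false

namespace Pool.Agent.H51.RB

open Finset

variable {V : Type}

/-- a list of a walk whose usage is controlled by `N` fits into the budget -/
theorem fit_of_usage {L K J t : ℕ} {θ : ℝ} (ht : (t : ℝ) = θ * J) {N : ℕ → ℕ}
    (hN : ∀ τ ∈ Icc L K, (N τ : ℝ) ≤ θ * τ) (hLK : L ≤ K) {l : List ℕ}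
    (h1 : ∀ a ∈ l, L ≤ a) (h2 : ∀ a ∈ l, a ≤ K) (h3 : ∀ τ, cn l τ ≤ N τ) : Fit J t l := by
  intro τ
  by_cases hτ : τ < L
  · have h4 : cn l τ = 0 := by
      unfold cn
      rw [List.countP_eq_zero]
      intro a ha
      have := h1 a ha
      simp
      omega
    rw [h4]; simp
  · push Not at hτ
    have key : ∀ σ ∈ Icc L K, J * cn l σ ≤ t * σ := by
      intro σ hσ
      have h4 : ((J * cn l σ : ℕ) : ℝ) ≤ ((t * σ : ℕ) : ℝ) := by
        push_cast
        rw [ht]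
        have h5 : (cn l σ : ℝ) ≤ θ * σ := le_trans (by exact_mod_cast h3 σ) (hN σ hσ)
        calc (J : ℝ) * cn l σ ≤ J * (θ * σ) := mul_le_mul_of_nonneg_left h5 (Nat.cast_nonneg _)
          _ = θ * J * σ := by ring
      exact_mod_cast h4
    by_cases hK : τ ≤ K
    · exact key τ (mem_Icc.2 ⟨hτ, hK⟩)
    · push Not at hK
      have h4 : cn l τ = cn l K := by
        unfold cn
        refine List.countP_congr fun a ha => ?_
        have := h2 a ha
        simp
        omega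
      rw [h4]
      exact (key K (mem_Icc.2 ⟨hLK, le_rfl⟩)).trans (Nat.mul_le_mul_left t hK.le)

theorem growth (θ κ C : ℝ) (hθ : 0 < θ) (hθ4 : θ ≤ 1 / 4) (hκ : 0 < κ) (hκ1 : κ ≤ 1)
    (hC : 0 ≤ C) (hCθ : C * θ ≤ 1) :
    ∃ L₁ : ℕ, ∀ L ≥ L₁, ∀ (V : Type) [DecidableEq V] (m : V → V → ℕ) (X : Finset V)
      (J t c δ : ℕ), Sys J L c δ m X → 0 < J → (t : ℝ) = θ * J → 0 < δ →
      (∀ A ⊆ X, A.Nonempty → ∃ v ∈ A, (∑ w ∈ A, (m v w : ℝ)) ≤ C * A.card) →
      ∀ v ∈ X, ∀ B : Finset V, (∀ w ∈ X, Rc m X J t v w → w ∈ B) →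
        (1 - C * θ - 3 * κ) * θ * δ ≤ B.card := by
  -- numerical parameters
  obtain ⟨a, ha⟩ : ∃ a : ℝ, a = θ / (1 + 2 * κ) := ⟨_, rfl⟩
  have ha0 : 0 < a := by rw [ha]; positivity
  obtain ⟨ρ, hρ⟩ : ∃ ρ : ℝ, ρ = 1 + κ := ⟨_, rfl⟩
  have hρ1 : 1 ≤ ρ := by rw [hρ]; linarith
  have hρ2 : ρ ≤ 2 := by rw [hρ]; linarith
  have hρ0 : 0 < ρ := by linarith
  obtain ⟨q, hq⟩ : ∃ q : ℝ, q = Real.exp (-(θ * Real.log ρ)) := ⟨_, rfl⟩
  have hq0 : 0 ≤ q := by rw [hq]; positivity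
  obtain ⟨r, hr⟩ : ∃ r : ℝ, r = q * Real.exp (κ * a) := ⟨_, rfl⟩
  have hr0 : 0 < r := by rw [hr, hq]; positivity
  have hlog : κ / (1 + κ) ≤ Real.log ρ := by
    have h1 := Real.one_sub_inv_le_log_of_pos hρ0
    have h2 : 1 - ρ⁻¹ = κ / (1 + κ) := by
      rw [hρ]; field_simp; ring
    rw [h2] at h1
    exact h1
  have hlog0 : 0 < Real.log ρ := lt_of_lt_of_le (by positivity) hlog
  have hr1 : r < 1 := by
    rw [hr, hq, ← Real.exp_add, Real.exp_lt_one_iff]
    have h1 : κ * a = θ * (κ / (1 + 2 * κ)) := by rw [ha]; ring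
    have h2 : κ / (1 + 2 * κ) < κ / (1 + κ) :=
      div_lt_div_of_pos_left hκ (by linarith) (by linarith)
    have h3 : θ * (κ / (1 + 2 * κ)) < θ * Real.log ρ :=
      mul_lt_mul_of_pos_left (lt_of_lt_of_le h2 hlog) hθ
    linarith
  -- the choice of `L₁`
  obtain ⟨L₀, hL₀⟩ : ∃ L₀ : ℕ, ∀ L ≥ L₀, r ^ L / (1 - r) ≤ κ * θ / 2 := by
    have h1 : Filter.Tendsto (fun L : ℕ => r ^ L / (1 - r)) Filter.atTop (nhds 0) := by
      have := (tendsto_pow_atTop_nhds_zero_of_lt_one hr0.le hr1).div_const (1 - r)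
      simpa using this
    have h2 : (0:ℝ) < κ * θ / 2 := by positivity
    obtain ⟨L₀, h⟩ := (Filter.eventually_atTop.1 (h1.eventually (gt_mem_nhds h2)))
    exact ⟨L₀, fun L hL => (h L hL).le⟩
  refine ⟨max L₀ 1, ?_⟩
  intro L hL V _ m X J t c δ hS hJ ht hδ hA v hv B hB
  have hL0 : L₀ ≤ L := le_trans (le_max_left _ _) hL
  have hL1 : 1 ≤ L := le_trans (le_max_right _ _) hL
  have hδr : (0:ℝ) < δ := by exact_mod_cast hδ
  by_contra hcon
  push Not at hcon
  have hBθ : (B.card : ℝ) < θ * δ := by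
    refine lt_of_lt_of_le hcon ?_
    have h1 : 1 - C * θ - 3 * κ ≤ 1 := by
      have : 0 ≤ C * θ := by positivity
      linarith
    calc (1 - C * θ - 3 * κ) * θ * δ = (1 - C * θ - 3 * κ) * (θ * δ) := by ring
      _ ≤ 1 * (θ * δ) := mul_le_mul_of_nonneg_right h1 (by positivity)
      _ = θ * δ := one_mul _
  -- the choice of `K`
  obtain ⟨K₁, hK₁⟩ : ∃ K₁ : ℕ, 2 / (κ * θ) ≤ K₁ := exists_nat_ge _
  obtain ⟨K, hK⟩ : ∃ K : ℕ, K = max (max L K₁) (∑ v ∈ X, ∑ w ∈ X, m v w) := ⟨_, rfl⟩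
  have hLK : L ≤ K := by rw [hK]; exact (le_max_left _ _).trans (le_max_left _ _)
  have hK₁K : K₁ ≤ K := by rw [hK]; exact (le_max_right _ _).trans (le_max_left _ _)
  have hK0 : 0 < K := lt_of_lt_of_le (by omega) hLK
  have hKr : (0:ℝ) < K := by exact_mod_cast hK0
  have hmK : ∀ a ∈ X, ∀ b ∈ X, m a b ≤ K := by
    intro a ha b hb
    have h1 : m a b ≤ ∑ w ∈ X, m a w :=
      single_le_sum (f := fun w => m a w) (fun _ _ => Nat.zero_le _) hb
    have h2 : ∑ w ∈ X, m a w ≤ ∑ v ∈ X, ∑ w ∈ X, m v w :=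
      single_le_sum (f := fun v => ∑ w ∈ X, m v w) (fun _ _ => Nat.zero_le _) ha
    rw [hK]
    exact (h1.trans h2).trans (le_max_right _ _)
  have hKinv : (1:ℝ) / K ≤ κ * θ / 2 := by
    have h1 : 2 / (κ * θ) ≤ K := hK₁.trans (by exact_mod_cast hK₁K)
    have h2 : 0 < κ * θ := by positivity
    rw [div_le_iff₀ h2] at h1
    rw [div_le_iff₀ hKr]
    linarith
  obtain ⟨T, hT⟩ : ∃ T : ℕ, T = ⌊a * K⌋₊ := ⟨_, rfl⟩
  have hTle : (T : ℝ) / K ≤ a := by
    rw [div_le_iff₀ hKr, hT]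
    exact Nat.floor_le (by positivity)
  have hTge : a - 1 / K ≤ (T : ℝ) / K := by
    rw [le_div_iff₀ hKr, sub_mul, div_mul_cancel₀ _ hKr.ne', hT]
    have := Nat.lt_floor_add_one (a * K)
    linarith
  obtain ⟨G, hG⟩ : ∃ G : ℝ, G = δ * (1 - C * θ) := ⟨_, rfl⟩
  have hG0 : 0 ≤ G := by
    rw [hG]
    have : 0 ≤ 1 - C * θ := by linarith
    positivity
  obtain ⟨Φ₀, hΦ₀⟩ : ∃ x : ℝ, x = Phi L K ρ q (fun _ => 0) T := ⟨_, rfl⟩
  have hΦ₀le : Φ₀ ≤ κ * θ / 2 := by
    rw [hΦ₀]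
    refine (Phi_zero_le hK0 hρ1 hq0 (r := r) ?_ hr1).trans (hL₀ L hL0)
    rw [hr]
    refine mul_le_mul_of_nonneg_left (Real.exp_le_exp.2 ?_) hq0
    have : ρ - 1 = κ := by rw [hρ]; ring
    rw [this]
    exact mul_le_mul_of_nonneg_left hTle hκ.le
  have hΦ₀θ : Φ₀ ≤ θ / 2 := by nlinarith
  -- the usage bound from the potential
  have husage : ∀ (N : ℕ → ℕ) (s : ℕ), Phi L K ρ q N s ≤ 2 * θ → ∀ τ ∈ Icc L K,
      ((N τ + 1 : ℕ) : ℝ) ≤ θ * τ := by
    intro N s h τ hτ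
    have h1 := (Phi_term hρ1 hq0 N s hτ).trans h
    have h2 : q ^ τ * ρ ^ (N τ + 1) ≤ 1 := by
      have e : q ^ τ * ρ ^ (N τ + 1) = q ^ τ * ρ ^ (N τ) * ρ := by rw [pow_succ]; ring
      rw [e]
      calc q ^ τ * ρ ^ (N τ) * ρ ≤ 2 * θ * ρ := mul_le_mul_of_nonneg_right h1 hρ0.le
        _ ≤ 2 * θ * 2 := mul_le_mul_of_nonneg_left hρ2 (by positivity)
        _ ≤ 1 := by linarith
    have h3 : q ^ τ * ρ ^ (N τ + 1)
        = Real.exp (Real.log ρ * (((N τ + 1 : ℕ) : ℝ) - θ * τ)) := by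
      have e1 : ρ ^ (N τ + 1) = Real.exp (((N τ + 1 : ℕ) : ℝ) * Real.log ρ) := by
        rw [Real.exp_nat_mul, Real.exp_log hρ0]
      have e2 : q ^ τ = Real.exp ((τ : ℝ) * (-(θ * Real.log ρ))) := by
        rw [Real.exp_nat_mul, hq]
      rw [e1, e2, ← Real.exp_add]
      congr 1
      ring
    rw [h3, Real.exp_le_one_iff] at h2
    by_contra hcon'
    push Not at hcon'
    have : 0 < Real.log ρ * (((N τ + 1 : ℕ) : ℝ) - θ * τ) := mul_pos hlog0 (by linarith)
    linarith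
  -- the process
  have proc : ∀ i ≤ T, ∃ (A : Finset V) (N : ℕ → ℕ), v ∈ A ∧ A ⊆ X ∧
      (∀ w ∈ A, ∃ l, Wk m X v w l ∧ (∀ a ∈ l, a ≤ K) ∧ ∀ τ, cn l τ ≤ N τ) ∧
      (∀ τ ∈ Icc L K, (N τ : ℝ) ≤ θ * τ) ∧
      i * (G / K) + (1 - δ * Φ₀) ≤ A.card - δ * Phi L K ρ q N (T - i) := by
    intro i
    induction i with
    | zero =>
      intro _
      refine ⟨{v}, fun _ => 0, mem_singleton_self v, singleton_subset_iff.2 hv, ?_, ?_, ?_⟩
      · intro w hw
        rw [mem_singleton.1 hw]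
        exact ⟨[], Wk.nil hv, by simp, fun τ => by rw [cn_nil]⟩
      · intro τ _
        push_cast
        positivity
      · rw [Nat.sub_zero, ← hΦ₀]
        simp
    | succ i ih =>
      intro hi
      obtain ⟨A, N, hvA, hAX, hW, hN, hpot⟩ := ih (by omega)
      have hAB : A ⊆ B := by
        intro w hw
        obtain ⟨l, h1, h2, h3⟩ := hW w hw
        exact hB w (hAX hw) ⟨l, h1, fit_of_usage ht hN hLK (h1.entries hS.big) h2 h3⟩
      have hAc : (A.card : ℝ) < θ * δ := lt_of_le_of_lt (by exact_mod_cast card_le_card hAB) hBθ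
      have hiG : 0 ≤ (i : ℝ) * (G / K) := by positivity
      have hΦ : Phi L K ρ q N (T - i) ≤ 2 * θ := by
        by_contra hcon'
        push Not at hcon'
        have h1 : δ * (2 * θ) < δ * Phi L K ρ q N (T - i) := mul_lt_mul_of_pos_left hcon' hδr
        have h2 : δ * Φ₀ ≤ δ * (θ / 2) := mul_le_mul_of_nonneg_left hΦ₀θ hδr.le
        have h3 : 0 < (δ : ℝ) * θ := by positivity
        nlinarith
      obtain ⟨x, hx, hxA⟩ := hA A hAX ⟨v, hvA⟩
      have hout : G ≤ ∑ w ∈ X \ A, (m x w : ℝ) := by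
        have h1 : (δ : ℝ) ≤ ∑ w ∈ X, (m x w : ℝ) := by exact_mod_cast hS.deg x (hAX hx)
        rw [← sum_sdiff hAX] at h1
        have h2 : C * A.card ≤ C * (θ * δ) := mul_le_mul_of_nonneg_left hAc.le hC
        rw [hG]
        nlinarith
      have hmx : ∀ w ∈ X \ A, m x w ≤ K := fun w hw => hmK x (hAX hx) w (mem_sdiff.1 hw).1
      -- averaging over the threshold
      have havg : ∑ j ∈ Icc 1 K, (((A ∪ (X \ A).filter fun w => j ≤ m x w).card : ℝ)
            - δ * Phi L K ρ q (fun τ => N τ + if j ≤ τ then 1 else 0) (T - (i + 1)))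
          = K * A.card + ∑ w ∈ X \ A, (m x w : ℝ) - δ * (K * Phi L K ρ q N (T - i)) := by
        rw [sum_sub_distrib, ← mul_sum, Phi_avg hK0]
        have e1 : T - (i + 1) + 1 = T - i := by omega
        rw [e1]
        congr 1
        have e2 : ∀ j ∈ Icc 1 K, ((A ∪ (X \ A).filter fun w => j ≤ m x w).card : ℝ)
            = A.card + ∑ w ∈ X \ A, if j ≤ m x w then (1:ℝ) else 0 := by
          intro j _
          rw [card_union_of_disjoint (disjoint_sdiff.mono_right (filter_subset _ _))]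
          push_cast
          rw [card_filter]
          push_cast
          rfl
        rw [sum_congr rfl e2, sum_add_distrib, sum_comm]
        congr 1
        · simp
        · refine sum_congr rfl fun w hw => ?_
          rw [sum_boole]
          have h4 : (Icc 1 K).filter (fun j => j ≤ m x w) = Icc 1 (m x w) := by
            ext j
            have := hmx w hw
            simp only [mem_filter, mem_Icc]
            omega
          rw [h4, Nat.card_Icc]
          simp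
      obtain ⟨j, hj, hjge⟩ : ∃ j ∈ Icc 1 K,
          (A.card : ℝ) - δ * Phi L K ρ q N (T - i) + G / K ≤
            ((A ∪ (X \ A).filter fun w => j ≤ m x w).card : ℝ)
            - δ * Phi L K ρ q (fun τ => N τ + if j ≤ τ then 1 else 0) (T - (i + 1)) := by
        refine exists_le_of_sum_le (s := Icc 1 K) ⟨1, mem_Icc.2 ⟨le_rfl, hK0⟩⟩ ?_
        rw [havg, sum_const, Nat.card_Icc]
        simp only [Nat.add_sub_cancel, nsmul_eq_mul]
        have : (K : ℝ) * (G / K) = G := by field_simp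
        nlinarith
      rw [mem_Icc] at hj
      refine ⟨A ∪ (X \ A).filter fun w => j ≤ m x w, fun τ => N τ + if j ≤ τ then 1 else 0,
        mem_union_left _ hvA, union_subset hAX ((filter_subset _ _).trans sdiff_subset), ?_, ?_,
        ?_⟩
      · intro w hw
        rcases mem_union.1 hw with hw | hw
        · obtain ⟨l, h1, h2, h3⟩ := hW w hw
          exact ⟨l, h1, h2, fun τ => (h3 τ).trans (Nat.le_add_right _ _)⟩
        · rw [mem_filter, mem_sdiff] at hw
          obtain ⟨⟨hwX, _⟩, hjw⟩ := hw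
          obtain ⟨l, h1, h2, h3⟩ := hW x hx
          refine ⟨l ++ [m x w], h1.append (Wk.single h1.right hwX (by omega)), ?_, ?_⟩
          · intro b hb
            rcases List.mem_append.1 hb with hb | hb
            · exact h2 b hb
            · rw [List.mem_singleton.1 hb]
              exact hmK x (hAX hx) w hwX
          · intro τ
            rw [cn_append, cn_cons, cn_nil, add_zero]
            refine add_le_add (h3 τ) ?_
            split_ifs <;> omega
      · intro τ hτ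
        refine le_trans ?_ (husage N (T - i) hΦ τ hτ)
        have : N τ + (if j ≤ τ then 1 else 0) ≤ N τ + 1 := by split_ifs <;> omega
        exact_mod_cast this
      · push_cast
        linarith
  obtain ⟨A, N, _, hAX, hW, hN, hpot⟩ := proc T le_rfl
  have hAB : A ⊆ B := by
    intro w hw
    obtain ⟨l, h1, h2, h3⟩ := hW w hw
    exact hB w (hAX hw) ⟨l, h1, fit_of_usage ht hN hLK (h1.entries hS.big) h2 h3⟩
  have hAc : (A.card : ℝ) ≤ B.card := by exact_mod_cast card_le_card hAB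
  have hΦ := Phi_nonneg (L := L) (K := K) hρ1 hq0 N (T - T)
  have h1 : (T : ℝ) * (G / K) = T / K * G := by ring
  have h2 : (a - 1 / K) * G ≤ T / K * G := mul_le_mul_of_nonneg_right hTge hG0
  have h3 : 0 ≤ δ * Phi L K ρ q N (T - T) := by positivity
  have h4 : (δ : ℝ) * Φ₀ ≤ δ * (κ * θ / 2) := mul_le_mul_of_nonneg_left hΦ₀le hδr.le
  have h5 : G ≤ δ := by
    rw [hG]
    have : 0 ≤ C * θ := by positivity
    nlinarith
  have h6 : 1 / K * G ≤ κ * θ / 2 * δ := mul_le_mul hKinv h5 hG0 (by positivity)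
  have h7 : θ * (1 - 2 * κ) ≤ a := by
    rw [ha, le_div_iff₀ (by positivity)]
    nlinarith [mul_pos hθ (mul_pos hκ hκ)]
  have h8 : θ * (1 - 2 * κ) * G ≤ a * G := mul_le_mul_of_nonneg_right h7 hG0
  have h9 : θ * (1 - 2 * κ) * G = θ * (1 - 2 * κ) * (1 - C * θ) * δ := by rw [hG]; ring
  have h10 : (1 - 2 * κ - C * θ) ≤ (1 - 2 * κ) * (1 - C * θ) := by
    have : 0 ≤ C * θ := by positivity
    nlinarith [mul_nonneg hκ.le this]
  have h11 : θ * δ * (1 - 2 * κ - C * θ) ≤ θ * δ * ((1 - 2 * κ) * (1 - C * θ)) :=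
    mul_le_mul_of_nonneg_left h10 (by positivity)
  nlinarith

end Pool.Agent.H51.RB
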