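import Mathlib
import Pool.Agent.H51.RB.Defs

/-! MODULE Red: the contraction of a set `S` of vertices which all reach `x`. -/

set_option autoImplicit false

namespace Pool.Agent.H51.RB

open Finset

variable {V : Type}

/-- Decomposition of a walk of the new system: either it is a walk of the old one, or it starts
with an old walk to a vertex `y` with an arc into `S` and ends, after an arc which has the
multiplicity of `x → z`, with an old walk from `z`. -/
theorem lift {m m' : V → V → ℕ} {X X' S : Finset V} {x : V} (hX : X' ⊆ X)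
    (hm : ∀ v u, m' v u = m v u ∨ (m' v u = m x u ∧ ∃ σ ∈ S, 0 < m v σ)) {v w : V} {l : List ℕ}
    (h : Wk m' X' v w l) :
    Wk m X v w l ∨ ∃ (y z σ : V) (l₁ l₂ : List ℕ), Wk m X v y l₁ ∧ σ ∈ S ∧ 0 < m y σ ∧
      0 < m x z ∧ Wk m X z w l₂ ∧ (l₁ ++ m x z :: l₂).Sublist l := by
  induction h with
  | nil hv => exact Or.inl (Wk.nil (hX hv))
  | @cons v u w l hv h hw ih =>
    rcases ih with ih | ⟨y, z, σ, l₁, l₂, h1, h2, h3, h4, h5, h6⟩
    · rcases hm v u with e | ⟨e, σ, hσ, hσ'⟩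
      · rw [e] at h ⊢
        exact Or.inl (Wk.cons (hX hv) h ih)
      · rw [e] at h ⊢
        exact Or.inr ⟨v, u, σ, [], l, Wk.nil (hX hv), hσ, hσ', h, ih, by simp⟩
    · rcases hm v u with e | ⟨e, σ', hσ, hσ'⟩
      · rw [e] at h ⊢
        exact Or.inr ⟨y, z, σ, m v u :: l₁, l₂, Wk.cons (hX hv) h h1, h2, h3, h4, h5,
          by simpa using h6⟩
      · refine Or.inr ⟨v, z, σ', [], l₂, Wk.nil (hX hv), hσ, hσ', h4, h5, ?_⟩
        have h7 : (m x z :: l₂).Sublist l :=
          (List.sublist_append_right l₁ (m x z :: l₂)).trans h6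
        exact h7.cons _

theorem reduce [DecidableEq V] {J L c t δ : ℕ} {m : V → V → ℕ} {X : Finset V}
    (hS : Sys J L (c + t + 1) δ m X) (hJL : J ≤ L) (hc : 1 ≤ c)
    (x : V) (hx : x ∈ X) (S : Finset V) (hSX : S ⊆ X)
    (hr : ∀ σ ∈ S, Rc m X J t σ x) :
    ∃ m' : V → V → ℕ, Sys J L c δ m' (X \ S) ∧
      (∀ r ∈ X \ S, ∀ w, Rc m' (X \ S) J c r w → Rc m X J (c + t + 1) r w) ∧
      (∀ w, Rc m' (X \ S) J c x w → Rc m X J c x w) := by
  classical
  have hbig : ∀ {a b : V}, 0 < m a b → L ≤ m a b := by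
    intro a b h
    rcases hS.big a b with h0 | h0
    · omega
    · exact h0
  have hone : ∀ {a b : V}, 0 < m a b → Fit J 1 [m a b] := fun h => Fit.single hJL (hbig h)
  -- no arc from `x` into `S`
  have hxS0 : ∀ σ ∈ S, m x σ = 0 := by
    intro σ hσ
    by_contra hne
    obtain ⟨l, hl, hf⟩ := hr σ hσ
    have h1 : Wk m X x x (m x σ :: l) := Wk.cons hx (Nat.pos_of_ne_zero hne) hl
    refine hS.acyc x _ h1 (by simp) ?_
    have h2 := (hone (Nat.pos_of_ne_zero hne)).append hf
    exact h2.mono (by omega)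
  -- no arc from `x` to an in-neighbour of `S`
  have hxv : ∀ v ∈ X, ∀ σ ∈ S, 0 < m v σ → m x v = 0 := by
    intro v hv σ hσ hvσ
    by_contra hne
    obtain ⟨l, hl, hf⟩ := hr σ hσ
    have h1 : Wk m X x x (m x v :: m v σ :: l) :=
      Wk.cons hx (Nat.pos_of_ne_zero hne) (Wk.cons hv hvσ hl)
    refine hS.acyc x _ h1 (by simp) ?_
    have h2 := (hone (Nat.pos_of_ne_zero hne)).append ((hone hvσ).append hf)
    exact h2.mono (by omega)
  set P : V → Prop := fun v => v ∈ X \ S ∧ v ≠ x ∧ ∃ σ ∈ S, 0 < m v σ with hP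
  set m' : V → V → ℕ := fun v u => if P v then max (m v u) (m x u) else m v u with hm'
  have hmm : ∀ v u, m' v u = m v u ∨ (m' v u = m x u ∧ ∃ σ ∈ S, 0 < m v σ) := by
    intro v u
    by_cases h : P v
    · rcases le_total (m v u) (m x u) with h1 | h1
      · refine Or.inr ⟨?_, h.2.2⟩
        simp only [hm', if_pos h, max_eq_right h1]
      · refine Or.inl ?_
        simp only [hm', if_pos h, max_eq_left h1]
    · refine Or.inl ?_
      simp only [hm', if_neg h]
  have hsub : X \ S ⊆ X := sdiff_subset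
  refine ⟨m', ⟨?_, ?_, ?_, ?_⟩, ?_, ?_⟩
  · intro v
    by_cases h : P v
    · simp only [hm', if_pos h]
      obtain ⟨h1, h2, σ, hσ, h3⟩ := h
      rw [hxv v (hsub h1) σ hσ h3, hS.loop]
      rfl
    · simp only [hm', if_neg h]
      exact hS.loop v
  · intro v w
    rcases hmm v w with e | ⟨e, _⟩
    · rw [e]; exact hS.big v w
    · rw [e]; exact hS.big x w
  · intro v hv
    have key : ∀ a ∈ X, (∀ σ ∈ S, m a σ = 0) → δ ≤ ∑ w ∈ X \ S, m a w := by
      intro a ha h0
      have h1 := hS.deg a ha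
      rw [← sum_sdiff hSX, sum_eq_zero (s := S) h0, add_zero] at h1
      exact h1
    by_cases h : P v
    · refine (key x hx hxS0).trans (sum_le_sum fun w _ => ?_)
      simp only [hm', if_pos h]
      exact le_max_right _ _
    · have e : ∑ w ∈ X \ S, m' v w = ∑ w ∈ X \ S, m v w := by
        refine sum_congr rfl fun w _ => ?_
        simp only [hm', if_neg h]
      rw [e]
      refine key v (hsub hv) fun σ hσ => ?_
      by_cases hvx : v = x
      · rw [hvx]; exact hxS0 σ hσ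
      · by_contra hne
        exact h ⟨hv, hvx, σ, hσ, Nat.pos_of_ne_zero hne⟩
  · intro v l hl hne hf
    rcases lift hsub hmm hl with h | ⟨y, z, σ, l₁, l₂, h1, hσ, h3, h4, h5, h6⟩
    · exact hS.acyc v l h hne (hf.mono (by omega))
    · obtain ⟨l₃, h7, h8⟩ := hr σ hσ
      have h9 : Wk m X v v (l₁ ++ (m y σ :: (l₃ ++ (m x z :: l₂)))) :=
        h1.append (Wk.cons h1.right h3 (h7.append (Wk.cons hx h4 h5)))
      refine hS.acyc v _ h9 (by simp) ?_
      intro τ
      have e1 := (hf.sub h6) τ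
      have e2 := h8 τ
      have e3 := (hone h3) τ
      simp only [cn_append, cn_cons, cn_nil] at e1 e2 e3 ⊢
      nlinarith
  · intro r hr' w ⟨l, hl, hf⟩
    rcases lift hsub hmm hl with h | ⟨y, z, σ, l₁, l₂, h1, hσ, h3, h4, h5, h6⟩
    · exact ⟨l, h, hf.mono (by omega)⟩
    · obtain ⟨l₃, h7, h8⟩ := hr σ hσ
      have h9 : Wk m X r w (l₁ ++ (m y σ :: (l₃ ++ (m x z :: l₂)))) :=
        h1.append (Wk.cons h1.right h3 (h7.append (Wk.cons hx h4 h5)))
      refine ⟨_, h9, ?_⟩
      intro τ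
      have e1 := (hf.sub h6) τ
      have e2 := h8 τ
      have e3 := (hone h3) τ
      simp only [cn_append, cn_cons, cn_nil] at e1 e2 e3 ⊢
      nlinarith
  · intro w ⟨l, hl, hf⟩
    rcases lift hsub hmm hl with h | ⟨y, z, σ, l₁, l₂, h1, hσ, h3, h4, h5, h6⟩
    · exact ⟨l, h, hf⟩
    · refine ⟨m x z :: l₂, Wk.cons hx h4 h5, hf.sub ?_⟩
      exact (List.sublist_append_right l₁ (m x z :: l₂)).trans h6

end Pool.Agent.H51.RB
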