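import Mathlib
import Pool.Agent.H51.RB.Red

/-! MODULE Stage: one stage of the iteration. -/

set_option autoImplicit false

namespace Pool.Agent.H51.RB

open Finset

variable {V : Type}

theorem stage [DecidableEq V] {J L c t δ h : ℕ} {b κ : ℝ} {m : V → V → ℕ} {X : Finset V}
    (hS : Sys J L (c + t + 1) δ m X) (hJL : J ≤ L) (hc : 1 ≤ c)
    (hball : ∀ v ∈ X, ∀ B : Finset V, (∀ w ∈ X, Rc m X J t v w → w ∈ B) → b ≤ B.card)
    (hb : 0 < b) (hκ : 0 < κ) (hh : (h + 1) * t ≤ c + t + 1)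
    (hpow : (δ : ℝ) ≤ (1 + κ) ^ h * b) (r : V) (hr : r ∈ X) (R : Finset V)
    (hR : ∀ w, w ∈ R ↔ Rc m X J (c + t + 1) r w) (hRδ : (R.card : ℝ) < δ) :
    ∃ (m' : V → V → ℕ) (X' : Finset V) (r' : V), Sys J L c δ m' X' ∧ r' ∈ X' ∧
      ∀ R' : Finset V, (∀ w, w ∈ R' ↔ Rc m' X' J c r' w) →
        (R'.card : ℝ) + (b / (1 + κ) - 1) ≤ R.card := by
  classical
  obtain ⟨F, hF⟩ : ∃ F : ℕ → Finset V, ∀ i w, w ∈ F i ↔ w ∈ X ∧ Rc m X J (i * t) r w :=
    ⟨fun i => X.filter fun w => Rc m X J (i * t) r w, fun i w => by rw [mem_filter]⟩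
  have hrF : ∀ i, r ∈ F i := fun i => (hF i r).2 ⟨hr, Rc.refl J _ hr⟩
  -- the pigeonhole argument
  have hex : ∃ i ≤ h, ((F (i + 1)).card : ℝ) ≤ (1 + κ) * (F i).card ∧ 1 ≤ i := by
    by_contra hcon
    push Not at hcon
    have h1 : ∀ i ≤ h, (1 + κ) ^ i * b ≤ (F (i + 1)).card := by
      intro i
      induction i with
      | zero =>
        intro _
        rw [pow_zero, one_mul]
        refine hball r hr (F (0 + 1)) ?_
        intro w hw hrw
        exact (hF _ w).2 ⟨hw, by simpa using hrw⟩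
      | succ i ih =>
        intro hi
        have h2 := ih (by omega)
        have h3 : ¬ ((F (i + 1 + 1)).card : ℝ) ≤ (1 + κ) * (F (i + 1)).card := by
          intro h4
          have := hcon (i + 1) hi h4
          omega
        push Not at h3
        calc (1 + κ) ^ (i + 1) * b = (1 + κ) * ((1 + κ) ^ i * b) := by rw [pow_succ]; ring
          _ ≤ (1 + κ) * (F (i + 1)).card := mul_le_mul_of_nonneg_left h2 (by linarith)
          _ ≤ _ := h3.le
    have h2 := h1 h le_rfl
    have h3 : F (h + 1) ⊆ R := by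
      intro w hw
      rw [hR]
      exact ((hF _ w).1 hw).2.mono hh
    have h4 : ((F (h + 1)).card : ℝ) ≤ R.card := by exact_mod_cast card_le_card h3
    linarith
  obtain ⟨i, hih, hi, hi1⟩ := hex
  have hiR : (i + 1) * t ≤ c + t + 1 := le_trans (Nat.mul_le_mul_right t (by omega)) hh
  have hFR : ∀ j ≤ i + 1, F j ⊆ R := by
    intro j hj w hw
    rw [hR]
    exact ((hF _ w).1 hw).2.mono ((Nat.mul_le_mul_right t hj).trans hiR)
  -- double counting
  have hex2 : ∃ x ∈ F (i + 1), b / (1 + κ) ≤ ((F i).filter fun v => Rc m X J t v x).card := by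
    by_contra hcon
    push Not at hcon
    have h1 : ∑ x ∈ F (i + 1), (((F i).filter fun v => Rc m X J t v x).card : ℝ)
        = ∑ v ∈ F i, (((F (i + 1)).filter fun x => Rc m X J t v x).card : ℝ) := by
      simp only [card_filter]
      push_cast
      exact sum_comm
    have h2 : ∀ v ∈ F i, b ≤ (((F (i + 1)).filter fun x => Rc m X J t v x).card : ℝ) := by
      intro v hv
      rw [hF] at hv
      refine hball v hv.1 _ ?_
      intro w hw hvw
      rw [mem_filter, hF]
      refine ⟨⟨hw, ?_⟩, hvw⟩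
      have := hv.2.trans hvw
      rw [add_mul, one_mul]
      exact this
    have h3 : (F i).card * b ≤ ∑ v ∈ F i, (((F (i + 1)).filter fun x => Rc m X J t v x).card : ℝ) := by
      have := sum_le_sum h2
      rwa [sum_const, nsmul_eq_mul] at this
    have h4 : ∑ x ∈ F (i + 1), (((F i).filter fun v => Rc m X J t v x).card : ℝ)
        < ∑ _x ∈ F (i + 1), b / (1 + κ) := sum_lt_sum_of_nonempty ⟨r, hrF _⟩ hcon
    rw [sum_const, nsmul_eq_mul, h1] at h4
    have h5 : ((F (i + 1)).card : ℝ) * (b / (1 + κ)) ≤ (F i).card * b := by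
      have h6 : ((F (i + 1)).card : ℝ) * (b / (1 + κ)) ≤ (1 + κ) * (F i).card * (b / (1 + κ)) :=
        mul_le_mul_of_nonneg_right hi (by positivity)
      refine h6.trans (le_of_eq ?_)
      have : (1 + κ) ≠ 0 := by positivity
      field_simp
    linarith
  obtain ⟨x, hxF, hx⟩ := hex2
  have hxX : x ∈ X := ((hF _ x).1 hxF).1
  obtain ⟨S, hSdef⟩ : ∃ S : Finset V, S = ((F i).filter fun v => Rc m X J t v x).erase x :=
    ⟨_, rfl⟩
  have hSF : S ⊆ F i := by
    rw [hSdef]
    exact (erase_subset _ _).trans (filter_subset _ _)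
  have hSX : S ⊆ X := fun w hw => ((hF _ w).1 (hSF hw)).1
  have hxS : x ∉ S := by rw [hSdef]; exact notMem_erase _ _
  have hrS : ∀ σ ∈ S, Rc m X J t σ x := by
    intro σ hσ
    rw [hSdef] at hσ
    exact (mem_filter.1 (mem_of_mem_erase hσ)).2
  have hScard : b / (1 + κ) - 1 ≤ (S.card : ℝ) := by
    have h1 : ((F i).filter fun v => Rc m X J t v x).card ≤ S.card + 1 := by
      rw [hSdef]
      have := pred_card_le_card_erase (s := (F i).filter fun v => Rc m X J t v x) (a := x)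
      omega
    have h2 : (((F i).filter fun v => Rc m X J t v x).card : ℝ) ≤ S.card + 1 := by
      exact_mod_cast h1
    linarith
  obtain ⟨m', h1, h2, h3⟩ := reduce hS hJL hc x hxX S hSX hrS
  obtain ⟨r', hr'X, hr'⟩ : ∃ r' ∈ X \ S, ∀ w, Rc m' (X \ S) J c r' w →
      Rc m X J (c + t + 1) r w := by
    by_cases hrS' : r ∈ S
    · refine ⟨x, mem_sdiff.2 ⟨hxX, hxS⟩, fun w hw => ?_⟩
      exact ((hrS r hrS').trans (h3 w hw)).mono (by omega)
    · exact ⟨r, mem_sdiff.2 ⟨hr, hrS'⟩, fun w hw => h2 r (mem_sdiff.2 ⟨hr, hrS'⟩) w hw⟩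
  refine ⟨m', X \ S, r', h1, hr'X, fun R' hR' => ?_⟩
  have h4 : R' ∪ S ⊆ R := by
    refine union_subset ?_ (hSF.trans (hFR i (by omega)))
    intro w hw
    rw [hR]
    exact hr' w ((hR' w).1 hw)
  have h5 : Disjoint R' S := by
    rw [disjoint_left]
    intro w hw
    exact (mem_sdiff.1 ((hR' w).1 hw).right).2
  have h6 : R'.card + S.card ≤ R.card := by
    rw [← card_union_of_disjoint h5]
    exact card_le_card h4
  have h7 : (R'.card : ℝ) + S.card ≤ R.card := by exact_mod_cast h6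
  linarith

end Pool.Agent.H51.RB
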