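import Mathlib
import Pool.Agent.H51.RB.Stage
import Pool.Agent.H51.RB.Grow
import Pool.Agent.H51.RB.Apr

/-! MODULE Main: the iteration and the choice of the parameters. -/

set_option autoImplicit false

namespace Pool.Agent.H51.RB

open Finset

/-- the iteration: `j` stages above the budget `(h + 1) t / J` give `j * g` vertices -/
theorem iterate {V : Type} [DecidableEq V] {J L t δ h : ℕ} {b κ : ℝ} (hJL : J ≤ L) (ht : 1 ≤ t)
    (hb : 0 < b) (hκ : 0 < κ) (hpow : (δ : ℝ) ≤ (1 + κ) ^ h * b) (hg : 0 ≤ b / (1 + κ) - 1)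
    (hball : ∀ (c : ℕ) (m : V → V → ℕ) (X : Finset V), (h + 1) * t ≤ c → Sys J L c δ m X →
      ∀ v ∈ X, ∀ B : Finset V, (∀ w ∈ X, Rc m X J t v w → w ∈ B) → b ≤ B.card) :
    ∀ (j : ℕ) (m : V → V → ℕ) (X : Finset V), Sys J L ((h + 1) * t + j * (t + 1)) δ m X →
      ∀ r ∈ X, ∀ R : Finset V, (∀ w, w ∈ R ↔ Rc m X J ((h + 1) * t + j * (t + 1)) r w) →
        min (δ : ℝ) (j * (b / (1 + κ) - 1)) ≤ R.card := by
  intro j
  induction j with
  | zero =>
    intro m X _ r _ R _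
    refine (min_le_right _ _).trans ?_
    simp
  | succ j ih =>
    intro m X hS r hr R hR
    by_cases hRδ : (R.card : ℝ) < δ
    · have e : (h + 1) * t + (j + 1) * (t + 1) = ((h + 1) * t + j * (t + 1)) + t + 1 := by ring
      rw [e] at hS
      simp only [e] at hR
      have h1 : 1 ≤ (h + 1) * t + j * (t + 1) := by
        have : 1 * 1 ≤ (h + 1) * t := Nat.mul_le_mul (by omega) ht
        omega
      have h2 : (h + 1) * t ≤ (h + 1) * t + j * (t + 1) + t + 1 := by omega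
      obtain ⟨m', X', r', h3, h4, h5⟩ := stage hS hJL h1 (hball _ m X h2 hS) hb hκ h2 hpow r hr R
        hR hRδ
      classical
      obtain ⟨R', hR'⟩ : ∃ R' : Finset V, ∀ w, w ∈ R' ↔
          Rc m' X' J ((h + 1) * t + j * (t + 1)) r' w := by
        refine ⟨X'.filter fun w => Rc m' X' J ((h + 1) * t + j * (t + 1)) r' w, fun w => ?_⟩
        rw [mem_filter]
        exact ⟨fun hw => hw.2, fun hw => ⟨hw.right, hw⟩⟩
      have h6 := ih m' X' h3 r' h4 R' hR'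
      have h7 := h5 R' hR'
      have h8 : min (δ : ℝ) (((j + 1 : ℕ) : ℝ) * (b / (1 + κ) - 1))
          ≤ min (δ : ℝ) (j * (b / (1 + κ) - 1)) + (b / (1 + κ) - 1) := by
        rcases le_total (δ : ℝ) (j * (b / (1 + κ) - 1)) with h9 | h9
        · rw [min_eq_left h9]
          exact (min_le_left _ _).trans (by linarith)
        · rw [min_eq_right h9]
          refine (min_le_right _ _).trans (le_of_eq ?_)
          push_cast
          ring
      linarith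
    · push Not at hRδ
      exact (min_le_left _ _).trans hRδ

/-- existence of the number `h` of pigeonhole steps -/
theorem exists_h (ε κ : ℝ) (hε : 0 < ε) (hκ : 0 < κ) (hε1 : ε ≤ 1) :
    ∃ h : ℕ, 13 / ((h : ℝ) + 1) ≤ ε / 32 ∧ 2 * (32 * ((h : ℝ) + 3) / ε + 1) ≤ (1 + κ) ^ h := by
  have h1 : Filter.Tendsto (fun n : ℕ => (n : ℝ) ^ 1 / (1 + κ) ^ n) Filter.atTop (nhds 0) :=
    tendsto_pow_const_div_const_pow_of_one_lt 1 (by linarith)
  have h2 : (0:ℝ) < ε / 258 := by positivity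
  obtain ⟨n₀, hn₀⟩ := Filter.eventually_atTop.1 (h1.eventually (gt_mem_nhds h2))
  obtain ⟨n₁, hn₁⟩ := exists_nat_ge (416 / ε)
  refine ⟨max n₀ (max n₁ 1), ?_, ?_⟩
  · have h3 : 416 / ε ≤ ((max n₀ (max n₁ 1) : ℕ) : ℝ) := by
      refine hn₁.trans ?_
      exact_mod_cast (le_max_left n₁ 1).trans (le_max_right _ _)
    rw [div_le_iff₀ hε] at h3
    rw [div_le_iff₀ (by positivity)]
    nlinarith
  · have h3 := hn₀ (max n₀ (max n₁ 1)) (le_max_left _ _)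
    have h4 : (1:ℝ) ≤ ((max n₀ (max n₁ 1) : ℕ) : ℝ) := by
      exact_mod_cast (le_max_right n₁ 1).trans (le_max_right _ _)
    obtain ⟨n, hn⟩ : ∃ n : ℕ, n = max n₀ (max n₁ 1) := ⟨_, rfl⟩
    rw [← hn] at h3 h4 ⊢
    have h5 : 0 < (1 + κ) ^ n := by positivity
    rw [pow_one, div_lt_iff₀ h5] at h3
    have h6 : (n : ℝ) * 258 / ε ≤ (1 + κ) ^ n := by
      rw [div_le_iff₀ hε]
      nlinarith
    refine le_trans ?_ h6
    rw [div_add_one hε.ne', mul_div_assoc', div_le_div_iff_of_pos_right hε]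
    nlinarith

/-- the main theorem in terms of the multiplicity function -/
theorem main_mult (ε : ℝ) (hε : 0 < ε) (hε1 : ε ≤ 1) : ∃ L₀ : ℕ, ∀ L ≥ L₀, ∀ (V : Type)
    [Fintype V] [DecidableEq V] (m : V → V → ℕ), (∀ v, m v v = 0) →
    (∀ v w, m v w = 0 ∨ L ≤ m v w) →
    (∀ v l, Wk m univ v v l → l ≠ [] → ¬ ∀ τ, cn l τ ≤ τ) →
    ∀ v₀, (∀ v, ∑ w, m v₀ w ≤ ∑ w, m v w) → ∀ R : Finset V,
      (∀ w, w ∈ R ↔ ∃ l, Wk m univ v₀ w l ∧ ∀ τ, cn l τ ≤ τ) →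
      (1 - ε) * ((∑ w, m v₀ w : ℕ) : ℝ) ≤ R.card - 1 := by
  obtain ⟨κ, hκ⟩ : ∃ κ : ℝ, κ = ε / 32 := ⟨_, rfl⟩
  have hκ0 : 0 < κ := by rw [hκ]; positivity
  obtain ⟨h, hh1, hh2⟩ := exists_h ε κ hε hκ0 hε1
  obtain ⟨M, hM⟩ : ∃ M : ℕ, M = ⌈32 * ((h : ℝ) + 3) / ε⌉₊ := ⟨_, rfl⟩
  have hMge : 32 * ((h : ℝ) + 3) / ε ≤ M := by rw [hM]; exact Nat.le_ceil _
  have hMle : (M : ℝ) < 32 * ((h : ℝ) + 3) / ε + 1 := by
    rw [hM]; exact Nat.ceil_lt_add_one (by positivity)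
  have hMge' : 32 * ((h : ℝ) + 3) ≤ M * ε := by
    rw [div_le_iff₀ hε] at hMge; exact hMge
  have hMh : h + 3 ≤ M := by
    have h1 : ((h + 3 : ℕ) : ℝ) ≤ M := by
      push_cast
      have h2 : (M : ℝ) * ε ≤ M := by
        have : (0:ℝ) ≤ M := Nat.cast_nonneg _
        nlinarith
      have h3 : (0:ℝ) ≤ h := Nat.cast_nonneg _
      linarith
    exact_mod_cast h1
  have hM4 : (96:ℝ) ≤ M := by
    have h2 : (M : ℝ) * ε ≤ M := by
      have : (0:ℝ) ≤ M := Nat.cast_nonneg _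
      nlinarith
    have h3 : (0:ℝ) ≤ h := Nat.cast_nonneg _
    linarith
  have hM0 : (0:ℝ) < M := by linarith
  have hMn : 0 < M := by exact_mod_cast hM0
  obtain ⟨θ, hθ⟩ : ∃ θ : ℝ, θ = 1 / M := ⟨_, rfl⟩
  have hθ0 : 0 < θ := by rw [hθ]; positivity
  have hMθ : M * θ = 1 := by rw [hθ]; field_simp
  obtain ⟨C, hC⟩ : ∃ C : ℝ, C = 13 * M / (h + 1) := ⟨_, rfl⟩
  have hC0 : 0 ≤ C := by rw [hC]; positivity
  have hCθ : C * θ = 13 / ((h : ℝ) + 1) := by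
    rw [hC, hθ]; field_simp
  have hCθ' : C * θ ≤ κ := by rw [hCθ, hκ]; exact hh1
  have hκ1 : κ ≤ 1 / 32 := by rw [hκ]; linarith
  obtain ⟨L₁, hL₁⟩ := growth θ κ C hθ0 (by
    rw [hθ, div_le_div_iff₀ hM0 (by norm_num)]; linarith) hκ0 (by linarith) hC0 (by linarith)
  obtain ⟨L₂, hL₂⟩ := exists_nat_ge (32 * (M : ℝ) / ε)
  refine ⟨max (max (M * M) L₁) (max L₂ (8 * M)), ?_⟩
  intro L hL V _ _ m hloop hbig hac v₀ hmin R hR
  have hLJ : M * M ≤ L := ((le_max_left _ _).trans (le_max_left _ _)).trans hL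
  have hLL₁ : L₁ ≤ L := ((le_max_right _ _).trans (le_max_left _ _)).trans hL
  have hLL₂ : L₂ ≤ L := ((le_max_left _ _).trans (le_max_right _ _)).trans hL
  have hL8 : 8 * M ≤ L := ((le_max_right _ _).trans (le_max_right _ _)).trans hL
  obtain ⟨δ, hδ⟩ : ∃ δ : ℕ, δ = ∑ w, m v₀ w := ⟨_, rfl⟩
  rw [← hδ] at hmin ⊢
  have hv₀R : v₀ ∈ R := (hR v₀).2 ⟨[], Wk.nil (mem_univ _), fun τ => by rw [cn_nil]; omega⟩
  have hRpos : (1:ℝ) ≤ R.card := by exact_mod_cast card_pos.2 ⟨v₀, hv₀R⟩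
  rcases Nat.eq_zero_or_pos δ with hδ0 | hδ0
  · rw [hδ0]; push_cast; linarith
  have hδL : L ≤ δ := by
    obtain ⟨w, _, hw⟩ := exists_ne_zero_of_sum_ne_zero (s := univ) (f := fun w => m v₀ w)
      (by rw [← hδ]; omega)
    rcases hbig v₀ w with h0 | h0
    · exact absurd h0 hw
    · rw [hδ]
      exact h0.trans (single_le_sum (f := fun w => m v₀ w) (fun _ _ => Nat.zero_le _) (mem_univ w))
  have hδr : (0:ℝ) < δ := by exact_mod_cast hδ0
  have hJ0 : 0 < M * M := Nat.mul_pos hMn hMn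
  have hfit : ∀ l, Fit (M * M) (M * M) l ↔ ∀ τ, cn l τ ≤ τ := by
    intro l
    refine forall_congr' fun τ => ?_
    exact ⟨fun h => Nat.le_of_mul_le_mul_left h hJ0, fun h => Nat.mul_le_mul_left _ h⟩
  have hSys : Sys (M * M) L (M * M) δ m univ := by
    refine ⟨hloop, hbig, fun v _ => hmin v, ?_⟩
    intro v l h1 h2 h3
    exact hac v l h1 h2 ((hfit l).1 h3)
  obtain ⟨b, hb⟩ : ∃ b : ℝ, b = (1 - C * θ - 3 * κ) * θ * δ := ⟨_, rfl⟩
  have hb1 : (1 - 4 * κ) * (θ * δ) ≤ b := by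
    rw [hb]
    have h1 : 0 ≤ θ * δ := by positivity
    nlinarith
  have hθδ : 8 ≤ θ * δ := by
    have h1 : ((8 * M : ℕ) : ℝ) ≤ δ := by exact_mod_cast hL8.trans hδL
    push_cast at h1
    rw [hθ, div_mul_eq_mul_div, one_mul, le_div_iff₀ hM0]
    exact h1
  have hb2 : 7 / 8 * (θ * δ) ≤ b := by nlinarith
  have hb0 : 0 < b := by nlinarith
  have hg0 : (1 - 5 * κ) * (θ * δ) ≤ b / (1 + κ) := by
    rw [le_div_iff₀ (by linarith)]
    have h1 : 0 ≤ θ * δ := by positivity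
    have h2 : (1 - 5 * κ) * (1 + κ) ≤ 1 - 4 * κ := by nlinarith
    nlinarith
  have hg : 0 ≤ b / (1 + κ) - 1 := by nlinarith
  have hpow : (δ : ℝ) ≤ (1 + κ) ^ h * b := by
    have h1 : 2 * (M : ℝ) ≤ (1 + κ) ^ h := by linarith
    have h2 : 2 * (M : ℝ) * (7 / 8 * (θ * δ)) ≤ (1 + κ) ^ h * b :=
      mul_le_mul h1 hb2 (by positivity) (by positivity)
    have h3 : 2 * (M : ℝ) * (7 / 8 * (θ * δ)) = 7 / 4 * (M * θ) * δ := by ring
    rw [h3, hMθ] at h2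
    linarith
  have hball : ∀ (c : ℕ) (m : V → V → ℕ) (X : Finset V), (h + 1) * M ≤ c →
      Sys (M * M) L c δ m X → ∀ v ∈ X, ∀ B : Finset V,
      (∀ w ∈ X, Rc m X (M * M) M v w → w ∈ B) → b ≤ B.card := by
    intro c m X hc hS v hv B hB
    rw [hb]
    refine hL₁ L hLL₁ V m X (M * M) M c δ hS hJ0 ?_ hδ0 ?_ v hv B hB
    · push_cast
      calc (M : ℝ) = (M * θ) * M := by rw [hMθ, one_mul]
        _ = θ * (M * M) := by ring
    · intro A hA hne
      obtain ⟨v, hvA, h1⟩ := apriori hS hJ0 A hA hne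
      refine ⟨v, hvA, ?_⟩
      have h2 : (h + 1) * M * ∑ w ∈ A, m v w ≤ 13 * (M * M) * A.card :=
        (Nat.mul_le_mul_right _ hc).trans h1
      have h3 : (((h : ℝ) + 1) * M) * ∑ w ∈ A, (m v w : ℝ) ≤ 13 * (M * M) * A.card := by
        exact_mod_cast h2
      rw [hC, div_mul_eq_mul_div, le_div_iff₀ (by positivity)]
      have h4 : M * ((∑ w ∈ A, (m v w : ℝ)) * (h + 1)) ≤ M * (13 * M * A.card) := by
        calc M * ((∑ w ∈ A, (m v w : ℝ)) * (h + 1))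
            = (((h : ℝ) + 1) * M) * ∑ w ∈ A, (m v w : ℝ) := by ring
          _ ≤ 13 * (M * M) * A.card := h3
          _ = _ := by ring
      exact le_of_mul_le_mul_left h4 hM0
  obtain ⟨j, hj⟩ : ∃ j : ℕ, j = M - (h + 3) := ⟨_, rfl⟩
  have hjM : M = j + (h + 3) := by omega
  have hcJ : (h + 1) * M + j * (M + 1) ≤ M * M := by
    have h1 : j * (M + 1) + (h + 3) * (M + 1) = M * (M + 1) := by
      rw [← add_mul, ← hjM]
    have h2 : (h + 3) * (M + 1) = (h + 1) * M + 2 * M + (h + 3) := by ring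
    have h3 : M * (M + 1) = M * M + M := by ring
    omega
  classical
  obtain ⟨R₁, hR₁⟩ : ∃ R₁ : Finset V, ∀ w, w ∈ R₁ ↔
      Rc m univ (M * M) ((h + 1) * M + j * (M + 1)) v₀ w := by
    refine ⟨univ.filter fun w => Rc m univ (M * M) ((h + 1) * M + j * (M + 1)) v₀ w,
      fun w => ?_⟩
    rw [mem_filter]
    exact ⟨fun hw => hw.2, fun hw => ⟨mem_univ _, hw⟩⟩
  have hit := iterate hLJ hMn hb0 hκ0 hpow hg hball j m univ (hSys.mono hcJ) v₀ (mem_univ _) R₁ hR₁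
  have hRR : R₁ ⊆ R := by
    intro w hw
    obtain ⟨l, h1, h2⟩ := ((hR₁ w).1 hw).mono hcJ
    exact (hR w).2 ⟨l, h1, (hfit l).1 h2⟩
  have hRR' : (R₁.card : ℝ) ≤ R.card := by exact_mod_cast card_le_card hRR
  have hδL' : 32 * (M : ℝ) / ε ≤ δ := by
    refine hL₂.trans ?_
    exact_mod_cast hLL₂.trans hδL
  have hMδ : (M : ℝ) ≤ κ * δ := by
    rw [div_le_iff₀ hε] at hδL'
    rw [hκ]
    linarith
  have hlast : (1 - 8 * κ) * δ ≤ R₁.card := by
    refine le_trans (le_min ?_ ?_) hit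
    · nlinarith
    · have h1 : (1 - κ) * M ≤ j := by
        have h2 : (M : ℝ) = j + (h + 3) := by exact_mod_cast hjM
        have h3 : (h : ℝ) + 3 ≤ κ * M := by rw [hκ]; linarith
        nlinarith
      have h2 : (1 - κ) * M * ((1 - 5 * κ) * (θ * δ)) ≤ j * (b / (1 + κ)) := by
        refine mul_le_mul h1 hg0 ?_ (Nat.cast_nonneg _)
        have : 0 ≤ 1 - 5 * κ := by linarith
        positivity
      have h3 : (1 - κ) * M * ((1 - 5 * κ) * (θ * δ)) = (1 - κ) * (1 - 5 * κ) * (M * θ) * δ := by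
        ring
      rw [h3, hMθ, mul_one] at h2
      have h4 : (j : ℝ) ≤ M := by
        have : j ≤ M := by omega
        exact_mod_cast this
      have h5 : (1 - 6 * κ) * δ ≤ (1 - κ) * (1 - 5 * κ) * δ := by
        refine mul_le_mul_of_nonneg_right ?_ hδr.le
        nlinarith
      have h6 : (j : ℝ) * (b / (1 + κ) - 1) = j * (b / (1 + κ)) - j := by ring
      rw [h6]
      linarith
  have h1 : (1:ℝ) ≤ κ * δ := by linarith
  have h2 : (1 - ε) * (δ : ℝ) ≤ (1 - 9 * κ) * δ := by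
    refine mul_le_mul_of_nonneg_right ?_ hδr.le
    rw [hκ]; linarith
  linarith

end Pool.Agent.H51.RB
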