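import Mathlib
import Pool.Agent.H51.RB.Defs
import Pool.Agent.H16.Rb.Walks

/-! Translation between list walks and rainbow paths / cycles. -/

set_option autoImplicit false

namespace Pool.Agent.H51.RB

open Finset Pool.Agent.H16.Rb

variable {V : Type}

/-- `w ≠ v` is the end of a rainbow directed path starting at `v`. -/
def Reach {k : ℕ} (E : Fin k → V → V → Prop) (v w : V) : Prop :=
  w ≠ v ∧ ∃ m : ℕ, ∃ x : Fin (m + 2) → V,
    Function.Injective x ∧ x 0 = v ∧ x (Fin.last (m + 1)) = w ∧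
    ∃ ℓ : Fin (m + 1) → Fin k, Function.Injective ℓ ∧
      ∀ j : Fin (m + 1), E (ℓ j) (x j.castSucc) (x j.succ)

/-- There is a rainbow directed cycle (of length at least 2). -/
def RainbowCycle {k : ℕ} (E : Fin k → V → V → Prop) : Prop :=
  ∃ m ≥ 2, ∃ x : Fin m → V, Function.Injective x ∧
    ∃ ℓ : Fin m → Fin k, Function.Injective ℓ ∧
      ∀ j : Fin m, E (ℓ j) (x j) (x (finRotate m j))

/-- The multiplicity of the ordered pair `(x, y)`: the number of `i` with `(x, y) ∈ E_i`. -/
noncomputable def mult {k : ℕ} (E : Fin k → V → V → Prop) (x y : V) : ℕ :=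
  Set.ncard {i : Fin k | E i x y}

theorem mult_eq {k : ℕ} (E : Fin k → V → V → Prop) [∀ i x y, Decidable (E i x y)] (x y : V) :
    mult E x y = (univ.filter fun i : Fin k => E i x y).card := by
  unfold mult
  rw [Set.ncard_eq_toFinset_card']
  congr 1
  ext i
  simp

variable {k : ℕ} {E : Fin k → V → V → Prop}

theorem exists_sdr {x : ℕ → V} {ℓ : ℕ} (h : HallW (mult E) x ℓ) :
    ∃ f : Fin ℓ → Fin k, Function.Injective f ∧ ∀ j : Fin ℓ, E (f j) (x j) (x (j + 1)) := by
  classical
  obtain ⟨t, ht⟩ : ∃ t : Fin ℓ → Finset (Fin k),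
      ∀ j, t j = univ.filter fun i : Fin k => E i (x j) (x (j + 1)) := ⟨_, fun _ => rfl⟩
  have hcard : ∀ j, (t j).card = mult E (x j) (x (j + 1)) := by
    intro j
    rw [mult_eq, ht]
  have hHall : ∀ S : Finset (Fin ℓ), S.card ≤ (S.biUnion t).card := by
    intro S
    rcases S.eq_empty_or_nonempty with h0 | hne
    · rw [h0]; simp
    · obtain ⟨i₀, hi₀, hmax⟩ := exists_max_image S (fun j => (t j).card) hne
      have h1 : (t i₀).card ≤ (S.biUnion t).card := card_le_card (subset_biUnion_of_mem t hi₀)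
      have h2 : S.card ≤ cw (fun a b => mult E a b ≤ (t i₀).card) x ℓ := by
        unfold cw
        refine card_le_card_of_injOn (fun j : Fin ℓ => (j : ℕ)) ?_ ?_
        · intro j hj
          simp only [coe_filter, mem_range, Set.mem_ofPred_eq]
          refine ⟨j.isLt, ?_⟩
          rw [← hcard]
          exact hmax j hj
        · intro a _ b _ hab
          exact Fin.ext hab
      exact h2.trans ((h _).trans h1)
  obtain ⟨f, hf, hft⟩ := (all_card_le_biUnion_card_iff_exists_injective t).1 hHall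
  refine ⟨f, hf, fun j => ?_⟩
  have := hft j
  rw [ht] at this
  exact (mem_filter.1 this).2

theorem cycle_of_walk (hloop : ∀ i v, ¬ E i v v)
    (h : ∃ (x : ℕ → V) (ℓ : ℕ), 0 < ℓ ∧ x 0 = x ℓ ∧ HallW (mult E) x ℓ) : RainbowCycle E := by
  obtain ⟨x, ℓ, hℓ, hx, hH⟩ := h
  obtain ⟨y, n, hn, hy, hHy, hinj⟩ := closed_simple _ x ℓ hℓ hx hH
  obtain ⟨f, hf, hE⟩ := exists_sdr hHy
  obtain ⟨n, rfl⟩ : ∃ n', n = n' + 1 := ⟨n - 1, by omega⟩
  have hn2 : 2 ≤ n + 1 := by
    by_contra hcon
    have h0 : n = 0 := by omega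
    subst h0
    have := hE 0
    simp only [Fin.val_zero, Nat.zero_add] at this
    rw [← hy] at this
    exact hloop _ _ this
  refine ⟨n + 1, hn2, fun i => y i, ?_, f, hf, ?_⟩
  · intro a b hab
    exact Fin.ext (hinj a a.isLt b b.isLt hab)
  · intro j
    have h1 := hE j
    by_cases hj : (j : ℕ) < n
    · have e : finRotate (n + 1) j = ⟨j + 1, by omega⟩ := by
        have := finRotate_of_lt hj
        exact this
      rw [e]
      exact h1
    · have hjn : (j : ℕ) = n := by omega
      have e : finRotate (n + 1) j = ⟨0, by omega⟩ := by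
        have : j = ⟨n, by omega⟩ := Fin.ext hjn
        rw [this]
        exact finRotate_last'
      rw [e]
      dsimp only
      rw [hy]
      rw [hjn] at h1 ⊢
      exact h1

theorem reach_of_walk {v w : V} (hne : w ≠ v)
    (h : ∃ (ℓ : ℕ) (x : ℕ → V), x 0 = v ∧ x ℓ = w ∧ HallW (mult E) x ℓ) : Reach E v w := by
  obtain ⟨ℓ, x, h0, h1, hH⟩ := h
  obtain ⟨y, n, hy0, hy1, hHy, hinj⟩ := path_simple _ v w x ℓ h0 h1 hH
  obtain ⟨f, hf, hE⟩ := exists_sdr hHy
  have hn : n ≠ 0 := by
    intro h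
    subst h
    exact hne (by rw [← hy0, ← hy1])
  obtain ⟨m, rfl⟩ : ∃ m, n = m + 1 := ⟨n - 1, by omega⟩
  refine ⟨hne, m, fun i => y i, ?_, hy0, hy1, f, hf, ?_⟩
  · intro a b hab
    exact Fin.ext (hinj a (by omega) b (by omega) hab)
  · intro j
    exact hE j

/-- a list walk as a function walk -/
theorem fun_of_wk (m : V → V → ℕ) (X : Finset V) {v w : V} {l : List ℕ} (h : Wk m X v w l) :
    ∃ x : ℕ → V, x 0 = v ∧ x l.length = w ∧
      ∀ τ, cw (fun a b => m a b ≤ τ) x l.length = cn l τ := by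
  classical
  induction h with
  | @nil v hv =>
    refine ⟨fun _ => v, rfl, rfl, fun τ => ?_⟩
    rw [cn_nil]
    simp [cw]
  | @cons v u w l hv h hw ih =>
    obtain ⟨x, h0, h1, h2⟩ := ih
    refine ⟨fun i => if i = 0 then v else x (i - 1), by simp, ?_, fun τ => ?_⟩
    · simp [h1]
    · rw [cn_cons, ← h2 τ, List.length_cons]
      unfold cw
      rw [card_filter, card_filter, sum_range_succ', add_comm]
      congr 1
      · simp [h0]

theorem Wk.congr {m m' : V → V → ℕ} {X : Finset V} (hm : ∀ v w, 0 < m v w → m' v w = m v w)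
    {v w : V} {l : List ℕ} (h : Wk m X v w l) : Wk m' X v w l := by
  induction h with
  | nil hv => exact Wk.nil hv
  | @cons v u w l hv h _ ih =>
    rw [← hm v u h]
    exact Wk.cons hv (by rw [hm v u h]; exact h) ih

end Pool.Agent.H51.RB
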